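import Pool.Agent.H.MP_a71740_an.N
set_option autoImplicit false

namespace Pool.Agent.Results.MP_80c44a_an.Yes
open Pool.Agent.H.MP_1a7c10_an

universe u

theorem result (p : ℝ) (hp0 : 0 < p) (hp1 : p < 1) (M : Type u) [MetricSpace M] (o : M)
    (X : Type u) [AddCommGroup X] [Module ℝ X] (N : X → ℝ) (δ : M → X)
    (hF : IsFree ℝ p o X N δ) : SchurP ℝ p N :=
  Pool.Agent.H.MP_a71740_an.isFree_schurP hp0 hp1 hF

end Pool.Agent.Results.MP_80c44a_an.Yes
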